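import Pool.Agent.Helper84.PH.Defs
import Pool.Agent.Helper42.PH.BND
import Pool.Agent.Helper4.PH.EX2a2

/-!
# EX2a : local lifts have zero derivative in the central directions
-/

open scoped Manifold ContDiff Topology
open Set Filter

noncomputable section

namespace HolPH

/-- A function with values in `ℂ²`, continuous at `y`, and with values in a discrete subgroup near
`y`, is locally constant. -/
theorem eventually_eq_of_mem_discrete {M : Type*} [TopologicalSpace M] (Λ : Submodule ℤ C2)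
    (hΛ : DiscreteTopology Λ) {D : M → C2} {y : M} (hD : ContinuousAt D y)
    (h : ∀ᶠ z in 𝓝 y, D z ∈ Λ) : ∀ᶠ z in 𝓝 y, D z = D y := by
  have hy : D y ∈ Λ := h.self_of_nhds
  have h1 : ({(⟨D y, hy⟩ : Λ)} : Set Λ) ∈ 𝓝 (⟨D y, hy⟩ : Λ) := by
    rw [discreteTopology_iff_nhds] at hΛ
    rw [hΛ]; exact mem_pure.2 rfl
  rw [nhds_subtype, mem_comap] at h1
  obtain ⟨t, ht, hts⟩ := h1
  filter_upwards [h, hD ht] with z hz hzt
  have : (⟨D z, hz⟩ : Λ) ∈ ({(⟨D y, hy⟩ : Λ)} : Set Λ) := hts hzt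
  exact congrArg Subtype.val (this : (⟨D z, hz⟩ : Λ) = ⟨D y, hy⟩)

/-- Two local lifts have the same derivative. -/
theorem mfderiv_lift_eq {M : Type*} [TopologicalSpace M] [ChartedSpace C3 M]
    (Λ : Submodule ℤ C2) (hΛ : DiscreteTopology Λ) {P : M → C2 ⧸ Λ} {P₁ P₂ : M → C2} {y : M}
    (h1 : MDifferentiableAt I3 𝓘(ℂ, C2) P₁ y) (h2 : MDifferentiableAt I3 𝓘(ℂ, C2) P₂ y)
    (e1 : ∀ᶠ z in 𝓝 y, P z = Submodule.Quotient.mk (P₁ z))
    (e2 : ∀ᶠ z in 𝓝 y, P z = Submodule.Quotient.mk (P₂ z))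
    (v : TangentSpace I3 y) :
    (mfderiv I3 𝓘(ℂ, C2) P₁ y v : C2) = (mfderiv I3 𝓘(ℂ, C2) P₂ y v : C2) := by
  have hD : ContinuousAt (fun z => P₁ z - P₂ z) y := h1.continuousAt.sub h2.continuousAt
  have hmem : ∀ᶠ z in 𝓝 y, P₁ z - P₂ z ∈ Λ := by
    filter_upwards [e1, e2] with z hz1 hz2
    exact (Submodule.Quotient.eq Λ).1 (hz1.symm.trans hz2)
  have hc := eventually_eq_of_mem_discrete Λ hΛ hD hmem
  have hE : P₁ =ᶠ[𝓝 y] (P₂ + fun _ => (P₁ y - P₂ y)) := by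
    filter_upwards [hc] with z hz
    simp only [Pi.add_apply]
    rw [← hz]; abel
  have h3 : HasMFDerivAt I3 𝓘(ℂ, C2) (P₂ + fun _ => (P₁ y - P₂ y)) y
      (mfderiv I3 𝓘(ℂ, C2) P₂ y + 0) :=
    h2.hasMFDerivAt.add (hasMFDerivAt_const _ _)
  have h4 : (mfderiv I3 𝓘(ℂ, C2) P₁ y : C3 →L[ℂ] C2) =
      (mfderiv I3 𝓘(ℂ, C2) P₂ y : C3 →L[ℂ] C2) :=
    (h3.congr_of_eventuallyEq hE).mfderiv.trans
      (add_zero (mfderiv I3 𝓘(ℂ, C2) P₂ y : C3 →L[ℂ] C2))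
  exact congrArg (fun L : C3 →L[ℂ] C2 => L v) h4

/-- The derivative of a local lift varies continuously. -/
theorem continuousOn_mfderiv_apply {M : Type*} [TopologicalSpace M] [ChartedSpace C3 M]
    [IsManifold I3 ω M] {Q : M → C2} {U : Set M} (hU : IsOpen U)
    (hQ : ContMDiffOn I3 𝓘(ℂ, C2) ω Q U) :
    ContinuousOn (fun p : TangentBundle I3 M => (mfderiv I3 𝓘(ℂ, C2) Q p.1 p.2 : C2))
      (Bundle.TotalSpace.proj ⁻¹' U) := by
  have : IsManifold I3 1 M := IsManifold.of_le (m := 1) (n := ω) le_top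
  have h1 := hQ.continuousOn_tangentMapWithin le_top hU.uniqueMDiffOn
  have h2 : ContinuousOn (fun p : TangentBundle I3 M =>
      ((tangentBundleModelSpaceHomeomorph 𝓘(ℂ, C2)
        (tangentMapWithin I3 𝓘(ℂ, C2) Q U p)) : ModelProd C2 C2).2)
      (Bundle.TotalSpace.proj ⁻¹' U) :=
    continuous_snd.comp_continuousOn
      ((tangentBundleModelSpaceHomeomorph 𝓘(ℂ, C2)).continuous.comp_continuousOn h1)
  refine h2.congr fun p hp => ?_
  have e : tangentMapWithin I3 𝓘(ℂ, C2) Q U p = tangentMap I3 𝓘(ℂ, C2) Q p :=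
    tangentMapWithin_eq_tangentMap (hU.uniqueMDiffOn p.1 hp)
      ((hQ.contMDiffAt (hU.mem_nhds hp)).mdifferentiableAt (by simp))
  have e2 : (((tangentBundleModelSpaceHomeomorph 𝓘(ℂ, C2)) (tangentMap I3 𝓘(ℂ, C2) Q p)) :
      ModelProd C2 C2).2 = (mfderiv I3 𝓘(ℂ, C2) Q p.1 p.2 : C2) := by
    rw [tangentBundleModelSpaceHomeomorph_coe]; rfl
  exact e2.symm.trans (congrArg (fun q => (((tangentBundleModelSpaceHomeomorph 𝓘(ℂ, C2)) q) :
      ModelProd C2 C2).2) e.symm)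

/-- Equivariance of the derivatives of lifts. -/
theorem mfderiv_lift_comp {M : Type*} [TopologicalSpace M] [ChartedSpace C3 M]
    [IsManifold I3 ω M] (g : M ≃ₘ^ω⟮I3, I3⟯ M)
    (Λ : Submodule ℤ C2) (hΛ : DiscreteTopology Λ) (A : C2 ≃ₗ[ℂ] C2) (w : C2)
    (P : M → C2 ⧸ Λ)
    (hgP : ∀ x v, P x = Submodule.Quotient.mk v → P (g x) = Submodule.Quotient.mk (A v + w))
    (x : M) (P₁ P₂ : M → C2)
    (h1 : MDifferentiableAt I3 𝓘(ℂ, C2) P₁ x) (h2 : MDifferentiableAt I3 𝓘(ℂ, C2) P₂ (g x))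
    (e1 : ∀ᶠ z in 𝓝 x, P z = Submodule.Quotient.mk (P₁ z))
    (e2 : ∀ᶠ z in 𝓝 (g x), P z = Submodule.Quotient.mk (P₂ z))
    (v : TangentSpace I3 x) :
    (mfderiv I3 𝓘(ℂ, C2) P₂ (g x) (mfderiv I3 I3 g x v) : C2) =
      A (mfderiv I3 𝓘(ℂ, C2) P₁ x v : C2) := by
  have hg : MDifferentiableAt I3 I3 g x := g.contMDiff.contMDiffAt.mdifferentiableAt (by simp)
  let A' : C2 →L[ℂ] C2 := LinearMap.toContinuousLinearMap (A : C2 →ₗ[ℂ] C2)
  have hA : HasMFDerivAt 𝓘(ℂ, C2) 𝓘(ℂ, C2) (fun z : C2 => A z + w) (P₁ x) A' := by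
    have : HasFDerivAt (fun z : C2 => A z + w) A' (P₁ x) := A'.hasFDerivAt.add_const w
    exact this.hasMFDerivAt
  have d1 : HasMFDerivAt I3 𝓘(ℂ, C2) (fun z => A (P₁ z) + w) x
      (A'.comp (mfderiv I3 𝓘(ℂ, C2) P₁ x : C3 →L[ℂ] C2)) :=
    hA.comp x h1.hasMFDerivAt
  have d2 : HasMFDerivAt I3 𝓘(ℂ, C2) (fun z => P₂ (g z)) x
      ((mfderiv I3 𝓘(ℂ, C2) P₂ (g x)).comp (mfderiv I3 I3 g x)) :=
    h2.hasMFDerivAt.comp x hg.hasMFDerivAt
  have e1' : ∀ᶠ z in 𝓝 x, P (g z) = Submodule.Quotient.mk (A (P₁ z) + w) := by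
    filter_upwards [e1] with z hz using hgP z _ hz
  have e2' : ∀ᶠ z in 𝓝 x, P (g z) = Submodule.Quotient.mk (P₂ (g z)) :=
    g.continuous.continuousAt.eventually e2
  have key := mfderiv_lift_eq (P := fun z => P (g z)) Λ hΛ d1.mdifferentiableAt
    d2.mdifferentiableAt e1' e2' v
  have k1 := congrArg (fun L : C3 →L[ℂ] C2 => L v) d1.mfderiv
  have k2 := congrArg (fun L : C3 →L[ℂ] C2 => L v) d2.mfderiv
  exact (k2.symm.trans key.symm).trans k1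

theorem norm_clm_real_smul (L : C3 →L[ℂ] C2) (c : ℝ) (v : C3) :
    ‖L (c • v)‖ = |c| * ‖L v‖ := by
  rw [← Complex.coe_smul, map_smul, norm_smul, Complex.norm_real, Real.norm_eq_abs]

/-- EX2a, with `bound` and `eq_zero_of_bounded_orbit` as hypotheses. -/
theorem ex2a_core {M : Type*} [TopologicalSpace M] [ChartedSpace C3 M] [IsManifold I3 ω M]
    (g : M ≃ₘ^ω⟮I3, I3⟯ M)
    (nc ns nu : TangentBundle I3 M → ℝ)
    (hbound : ∀ G : TangentBundle I3 M → ℝ, Continuous G →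
      (∀ (x : M) (c : ℝ) (v : TangentSpace I3 x), G ⟨x, c • v⟩ = |c| * G ⟨x, v⟩) →
      ∃ C : ℝ, 0 < C ∧ ∀ v, G v ≤ C * (nc v + ns v + nu v))
    (a b : ℝ) (ha0 : 0 < a) (hb0 : 0 < b)
    (gc : ∀ (x : M) (v : TangentSpace I3 x), nc ⟨g x, mfderiv I3 I3 g x v⟩ = nc ⟨x, v⟩)
    (gs : ∀ (x : M) (v : TangentSpace I3 x), ns ⟨g x, mfderiv I3 I3 g x v⟩ = a * ns ⟨x, v⟩)
    (gu : ∀ (x : M) (v : TangentSpace I3 x), nu ⟨g x, mfderiv I3 I3 g x v⟩ = b * nu ⟨x, v⟩)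
    (Λ : Submodule ℤ C2) (hΛ : DiscreteTopology Λ) (A : C2 ≃ₗ[ℂ] C2) (w : C2)
    (hzero : ∀ (w : C2) (C : ℝ), (∀ j : ℕ, ‖(A : C2 → C2)^[j] w‖ ≤ C) →
      (∀ j : ℕ, ‖(A.symm : C2 → C2)^[j] w‖ ≤ C) → w = 0)
    (P : M → C2 ⧸ Λ) (hP : IsHolomorphicToTorus Λ P)
    (hgP : ∀ x v, P x = Submodule.Quotient.mk v → P (g x) = Submodule.Quotient.mk (A v + w))
    (x : M) (P' : M → C2) (hP' : ContMDiffAt I3 𝓘(ℂ, C2) ω P' x)
    (hPP' : ∀ᶠ y in 𝓝 x, P y = Submodule.Quotient.mk (P' y))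
    (v : TangentSpace I3 x) (hvs : ns ⟨x, v⟩ = 0) (hvu : nu ⟨x, v⟩ = 0) :
    (mfderiv I3 𝓘(ℂ, C2) P' x v : C2) = 0 := by
  choose Q hQ1 hQ2 using hP
  have hQd : ∀ x, MDifferentiableAt I3 𝓘(ℂ, C2) (Q x) x := fun x =>
    (hQ1 x).mdifferentiableAt (by simp)
  -- the derivative of the lifts
  let dP : TangentBundle I3 M → C2 := fun p => (mfderiv I3 𝓘(ℂ, C2) (Q p.1) p.1 p.2 : C2)
  have hdPc : Continuous dP := by
    rw [continuous_iff_continuousAt]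
    intro p₀
    obtain ⟨u, hu, hQu⟩ := (contMDiffAt_iff_contMDiffOn_nhds (by simp)).1 (hQ1 p₀.1)
    obtain ⟨t, htu, hto, hpt⟩ := mem_nhds_iff.1
      (inter_mem hu (eventually_eventually_nhds.2 (hQ2 p₀.1)))
    have hc := continuousOn_mfderiv_apply hto (hQu.mono fun z hz => (htu hz).1)
    have hπ : Continuous (Bundle.TotalSpace.proj : TangentBundle I3 M → M) :=
      FiberBundle.continuous_proj C3 (TangentSpace I3)
    have hpo : (Bundle.TotalSpace.proj ⁻¹' t : Set (TangentBundle I3 M)) ∈ 𝓝 p₀ :=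
      (hto.preimage hπ).mem_nhds hpt
    refine (hc.continuousAt hpo).congr ?_
    filter_upwards [hpo] with p hp
    have hp' := htu hp
    exact mfderiv_lift_eq Λ hΛ
      ((hQu.contMDiffAt (mem_of_superset (hto.mem_nhds hp) fun z hz => (htu hz).1)
        ).mdifferentiableAt (by simp)) (hQd p.1) hp'.2 (hQ2 p.1) p.2
  obtain ⟨C, hC0, hC⟩ := hbound (fun p => ‖dP p‖) hdPc.norm (by
    intro x c v
    exact norm_clm_real_smul (mfderiv I3 𝓘(ℂ, C2) (Q x) x) c v)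
  -- the action of `g` and of its inverse on the tangent bundle
  let T : TangentBundle I3 M → TangentBundle I3 M := tangentMap I3 I3 g
  let S : TangentBundle I3 M → TangentBundle I3 M := tangentMap I3 I3 g.symm
  have hTS : ∀ p, T (S p) = p := by
    intro p
    have h := tangentMap_comp_at (I := I3) (I' := I3) (I'' := I3) (g := g) (f := g.symm) p
      (g.contMDiff.contMDiffAt.mdifferentiableAt (by simp))
      (g.symm.contMDiff.contMDiffAt.mdifferentiableAt (by simp))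
    have h2 : (⇑g ∘ ⇑g.symm) = id := by ext z; simp
    rw [h2, tangentMap_id] at h
    exact h.symm
  have hTc : ∀ p, nc (T p) = nc p := fun p => gc p.1 p.2
  have hTs : ∀ p, ns (T p) = a * ns p := fun p => gs p.1 p.2
  have hTu : ∀ p, nu (T p) = b * nu p := fun p => gu p.1 p.2
  have hTd : ∀ p, dP (T p) = A (dP p) := fun p =>
    mfderiv_lift_comp g Λ hΛ A w P hgP p.1 (Q p.1) (Q (g p.1)) (hQd _) (hQd _) (hQ2 _) (hQ2 _) p.2
  have hSc : ∀ p, nc (S p) = nc p := fun p => by rw [← hTc, hTS]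
  have hSs : ∀ p, ns p = 0 → ns (S p) = 0 := fun p hp => by
    have h := hTs (S p); rw [hTS, hp] at h
    exact (mul_eq_zero.1 h.symm).resolve_left ha0.ne'
  have hSu : ∀ p, nu p = 0 → nu (S p) = 0 := fun p hp => by
    have h := hTu (S p); rw [hTS, hp] at h
    exact (mul_eq_zero.1 h.symm).resolve_left hb0.ne'
  have hSd : ∀ p, dP (S p) = A.symm (dP p) := fun p => by
    have h := hTd (S p); rw [hTS] at h; rw [h]; simp
  have hT : ∀ (j : ℕ) (p : TangentBundle I3 M), ns p = 0 → nu p = 0 →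
      ns (T^[j] p) = 0 ∧ nu (T^[j] p) = 0 ∧ nc (T^[j] p) = nc p ∧
        dP (T^[j] p) = (A : C2 → C2)^[j] (dP p) := by
    intro j
    induction j with
    | zero => intro p h1 h2; exact ⟨h1, h2, rfl, rfl⟩
    | succ j ih =>
      intro p h1 h2
      obtain ⟨i1, i2, i3, i4⟩ := ih p h1 h2
      rw [Function.iterate_succ_apply', Function.iterate_succ_apply']
      refine ⟨by rw [hTs, i1, mul_zero], by rw [hTu, i2, mul_zero], by rw [hTc, i3], ?_⟩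
      rw [hTd, i4]
  have hS : ∀ (j : ℕ) (p : TangentBundle I3 M), ns p = 0 → nu p = 0 →
      ns (S^[j] p) = 0 ∧ nu (S^[j] p) = 0 ∧ nc (S^[j] p) = nc p ∧
        dP (S^[j] p) = (A.symm : C2 → C2)^[j] (dP p) := by
    intro j
    induction j with
    | zero => intro p h1 h2; exact ⟨h1, h2, rfl, rfl⟩
    | succ j ih =>
      intro p h1 h2
      obtain ⟨i1, i2, i3, i4⟩ := ih p h1 h2
      rw [Function.iterate_succ_apply', Function.iterate_succ_apply']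
      refine ⟨hSs _ i1, hSu _ i2, by rw [hSc, i3], ?_⟩
      rw [hSd, i4]
  have hz : dP ⟨x, v⟩ = 0 := by
    refine hzero _ (C * nc ⟨x, v⟩) (fun j => ?_) (fun j => ?_)
    · obtain ⟨i1, i2, i3, i4⟩ := hT j ⟨x, v⟩ hvs hvu
      have h := hC (T^[j] ⟨x, v⟩)
      simp only [i1, i2, i3, i4, add_zero] at h
      exact h
    · obtain ⟨i1, i2, i3, i4⟩ := hS j ⟨x, v⟩ hvs hvu
      have h := hC (S^[j] ⟨x, v⟩)
      simp only [i1, i2, i3, i4, add_zero] at h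
      exact h
  exact (mfderiv_lift_eq Λ hΛ (hP'.mdifferentiableAt (by simp)) (hQd x) hPP' (hQ2 x) v).trans hz

/-- EX2a.  Local lifts of `P` have zero derivative in the central directions. -/
theorem ex2a {M : Type*} [TopologicalSpace M] [ChartedSpace C3 M] [IsManifold I3 ω M]
    [CompactSpace M] (g : M ≃ₘ^ω⟮I3, I3⟯ M)
    (nc ns nu : TangentBundle I3 M → ℝ) (hcc : Continuous nc) (hsc : Continuous ns)
    (huc : Continuous nu)
    (hc0 : ∀ v, 0 ≤ nc v) (hs0 : ∀ v, 0 ≤ ns v) (hu0 : ∀ v, 0 ≤ nu v)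
    (h0 : ∀ (x : M) (v : TangentSpace I3 x), nc ⟨x, v⟩ = 0 → ns ⟨x, v⟩ = 0 → nu ⟨x, v⟩ = 0 → v = 0)
    (hcs : ∀ (x : M) (c : ℝ) (v : TangentSpace I3 x), nc ⟨x, c • v⟩ = |c| * nc ⟨x, v⟩)
    (hss : ∀ (x : M) (c : ℝ) (v : TangentSpace I3 x), ns ⟨x, c • v⟩ = |c| * ns ⟨x, v⟩)
    (hus : ∀ (x : M) (c : ℝ) (v : TangentSpace I3 x), nu ⟨x, c • v⟩ = |c| * nu ⟨x, v⟩)
    (a b : ℝ) (ha0 : 0 < a) (hb0 : 0 < b)
    (gc : ∀ (x : M) (v : TangentSpace I3 x), nc ⟨g x, mfderiv I3 I3 g x v⟩ = nc ⟨x, v⟩)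
    (gs : ∀ (x : M) (v : TangentSpace I3 x), ns ⟨g x, mfderiv I3 I3 g x v⟩ = a * ns ⟨x, v⟩)
    (gu : ∀ (x : M) (v : TangentSpace I3 x), nu ⟨g x, mfderiv I3 I3 g x v⟩ = b * nu ⟨x, v⟩)
    (Λ : Submodule ℤ C2) (hΛ : DiscreteTopology Λ) (A : C2 ≃ₗ[ℂ] C2) (w : C2)
    (hA : ∀ μ : ℂ, Module.End.HasEigenvalue (A : C2 →ₗ[ℂ] C2) μ → ‖μ‖ ≠ 1)
    (P : M → C2 ⧸ Λ) (hP : IsHolomorphicToTorus Λ P)
    (hgP : ∀ x v, P x = Submodule.Quotient.mk v → P (g x) = Submodule.Quotient.mk (A v + w))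
    (x : M) (P' : M → C2) (hP' : ContMDiffAt I3 𝓘(ℂ, C2) ω P' x)
    (hPP' : ∀ᶠ y in 𝓝 x, P y = Submodule.Quotient.mk (P' y))
    (v : TangentSpace I3 x) (hvs : ns ⟨x, v⟩ = 0) (hvu : nu ⟨x, v⟩ = 0) :
    (mfderiv I3 𝓘(ℂ, C2) P' x v : C2) = 0 := by
  refine ex2a_core g nc ns nu ?_ a b ha0 hb0 gc gs gu Λ hΛ A w
    (fun w' C' k1 k2 => eq_zero_of_bounded_orbit A hA w' C' k1 k2) P hP hgP x P' hP' hPP' v hvs hvu
  intro G hG hGs
  refine bound (fun p => nc p + ns p + nu p) G ((hcc.add hsc).add huc) hG ?_ ?_ hGs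
  · intro y u hu
    have c0 := hc0 ⟨y, u⟩
    have s0 := hs0 ⟨y, u⟩
    have u0 := hu0 ⟨y, u⟩
    rcases c0.eq_or_lt with h1 | h1
    · rcases s0.eq_or_lt with h2 | h2
      · rcases u0.eq_or_lt with h3 | h3
        · exact absurd (h0 y u h1.symm h2.symm h3.symm) hu
        · linarith
      · linarith
    · linarith
  · intro y c u
    simp only [hcs, hss, hus]; ring

end HolPH
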